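import Pool.Agent.Helper51.SDL.Goals

/-!
# Project SD (MP_fc6b1e_nt), part L, packet VEX: the group `V`
-/

set_option autoImplicit false

namespace Pool.Agent.Helper49.SDL.VEX

open NumberField Module IsDedekindDomain
open Pool.Agent.Helper51.RP Pool.Agent.Helper51.REC Pool.Agent.Helper16.SD Pool.Agent.Helper51.SDL

theorem val_p {F L : Type} [Field F] [NumberField F] [Field L] [NumberField L] [Algebra F L]
    (p : ℕ) (W : HeightOneSpectrum (𝓞 F)) (w : HeightOneSpectrum (𝓞 L)) (h : Above w W)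
    (hp : W.valuation F (p : F) < 1) : w.valuation L (p : L) < 1 := by
  have e1 : algebraMap (𝓞 F) F (p : 𝓞 F) = (p : F) := map_natCast _ p
  have e2 : algebraMap (𝓞 L) L (p : 𝓞 L) = (p : L) := map_natCast _ p
  have h1 : ((p : 𝓞 F)) ∈ W.asIdeal := by
    exact (HeightOneSpectrum.valuation_lt_one_iff_mem (K := F) W _).1
      (lt_of_eq_of_lt (congrArg (W.valuation F) e1) hp)
  rw [← h, Ideal.mem_comap, map_natCast] at h1
  have h2 := (HeightOneSpectrum.valuation_lt_one_iff_mem (K := L) w _).2 h1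
  exact lt_of_eq_of_lt (congrArg (w.valuation L) e2.symm) h2

theorem t (h1 : S_LAT1) (h2 : S_LAT2) (h3 : S_LOC) : Pool.Agent.Helper51.SDL.S_VEX := by
  intro p _ F L _ _ _ _ _ _ n σ hn hg S hS hp
  obtain ⟨R, a, M₀, hR, hL, hint, hM⟩ := h3 p F L n σ hn hg S hS hp
  obtain ⟨N1, hN1⟩ := h1 F L p R n σ a hL
  obtain ⟨N2, hN2⟩ := h2 F L p R n σ a hL
  obtain ⟨_, V, s, hV, hs⟩ := hN1 (N1 + N2 + 1) (by omega)
  have hpL : (p : L) ≠ 0 := Nat.cast_ne_zero.mpr (Fact.out : p.Prime).ne_zero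
  refine ⟨V, s, N1 + N2 + 1 + M₀, hs, ?_, ?_, ?_⟩
  · intro v hv
    have e1 : ∀ i : ℕ, ((((s ^ i : MulAut V) v : V) : Lˣ) : L) = (σ ^ i) ((v : Lˣ) : L) := by
      intro i
      induction i with
      | zero => rfl
      | succ i ih => rw [pow_succ', MulAut.mul_apply, hs, ih, pow_succ', AlgEquiv.mul_apply]
    have e2 : ∏ i ∈ Finset.range n, (σ ^ i) ((v : Lˣ) : L) = 1 := by
      have e3 : (((nmG n s v : V) : Lˣ) : L) = 1 := by rw [hv]; rfl
      rw [← e3]
      unfold nmG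
      rw [MonoidHom.finset_prod_apply, SubmonoidClass.coe_finset_prod, Units.coe_prod]
      exact Finset.prod_congr rfl fun i _ => (e1 i).symm
    obtain ⟨y, hy, hy2⟩ := hN2 (N1 + N2 + 1) (by omega) v ((hV v).1 v.2) e2
    refine ⟨⟨y, (hV y).2 hy⟩, ?_⟩
    show v = (⟨y, (hV y).2 hy⟩ : V) / s ⟨y, (hV y).2 hy⟩
    rw [eq_div_iff_mul_eq']
    refine Subtype.ext (Units.ext ?_)
    show ((v : Lˣ) : L) * (((s ⟨y, (hV y).2 hy⟩ : V) : Lˣ) : L) = (y : L)
    rw [hs]
    exact hy2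
  · intro v hv
    rw [hV]
    have e1 := hM (((v : L) - 1) / (p : L) ^ (N1 + N2 + 1 + M₀)) (by
      intro w hw
      have e2 := hv w hw
      rw [map_div₀, map_pow]
      exact div_le_one_of_le₀ e2 zero_le)
    refine ⟨_, e1, ?_⟩
    have e3 : (p : L) ^ (N1 + N2 + 1) * ((p : L) ^ M₀ * (((v : L) - 1) /
        (p : L) ^ (N1 + N2 + 1 + M₀))) = (v : L) - 1 := by
      rw [← mul_assoc, ← pow_add]
      exact mul_div_cancel₀ _ (pow_ne_zero _ hpL)
    rw [e3]
    ring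
  · intro v hv w hw
    obtain ⟨x, hx, hvx⟩ := (hV v).1 hv
    have e1 := hint x hx w hw
    obtain ⟨W, hW, hab⟩ := hw
    have e2 := val_p p W w hab (hp W hW)
    rw [hvx]
    refine Valuation.map_one_add_of_lt _ ?_
    rw [map_mul, map_pow]
    calc w.valuation L (p : L) ^ (N1 + N2 + 1) * w.valuation L x
        ≤ w.valuation L (p : L) ^ (N1 + N2 + 1) * 1 := by gcongr
      _ = w.valuation L (p : L) ^ (N1 + N2 + 1) := mul_one _
      _ < 1 := pow_lt_one₀ zero_le e2 (by omega)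

end Pool.Agent.Helper49.SDL.VEX
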